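import Mathlib
import Pool.Agent.H.MP_0c1da6_nt.A
set_option autoImplicit false

namespace Pool.Agent.H.MP_0c1da6_nt
open Finset Filter Topology Pool.Agent.H.MP_9f86c8_nt

open Classical in
noncomputable def cnt (A : Set ℕ) (N : ℕ) : ℕ := ((Icc 1 N).filter fun n => n ∈ A).card

open Classical in
theorem cnt_succ (A : Set ℕ) (N : ℕ) : cnt A (N + 1) = cnt A N + if N + 1 ∈ A then 1 else 0 := by
  unfold cnt
  rw [← insert_Icc_right_eq_Icc_add_one (by omega), filter_insert]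
  split_ifs with h
  · rw [card_insert_of_notMem (by simp)]
  · rfl

open Classical in
theorem cnt_Ioc (A : Set ℕ) {K N : ℕ} (h : K ≤ N) :
    cnt A N = cnt A K + ((Ioc K N).filter fun n => n ∈ A).card := by
  unfold cnt
  rw [← card_union_of_disjoint, ← filter_union]
  · congr 2
    ext n
    simp only [mem_Icc, mem_union, mem_Ioc]
    omega
  · refine disjoint_filter_filter (disjoint_left.2 fun n h1 h2 => ?_)
    have := mem_Icc.1 h1
    have := mem_Ioc.1 h2
    omega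

theorem thin (A : Set ℕ) (θ : ℝ) (hθ : 0 ≤ θ) (E : ℕ → ℝ)
    (hE : Tendsto (fun N : ℕ => E N / N) atTop (𝓝 0))
    (h : ∀ K N : ℕ, K ≤ N → θ * (N - K) - E N ≤ (cnt A N : ℝ) - cnt A K) :
    ∃ B ⊆ A, Tendsto (fun N : ℕ => (cnt B N : ℝ) / N) atTop (𝓝 θ) := by
  classical
  obtain ⟨b, hb0, hb⟩ : ∃ b : ℕ → ℕ, b 0 = 0 ∧ ∀ n : ℕ,
      b (n + 1) = if n + 1 ∈ A ∧ ((b n : ℕ) : ℝ) < θ * (n + 1) then b n + 1 else b n :=
    ⟨fun n => Nat.rec 0
      (fun n (x : ℕ) => if n + 1 ∈ A ∧ (x : ℝ) < θ * (n + 1) then x + 1 else x) n, rfl, fun n => rfl⟩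
  refine ⟨{m | m ∈ A ∧ (b (m - 1) : ℝ) < θ * m}, fun m hm => hm.1, ?_⟩
  set B := {m | m ∈ A ∧ (b (m - 1) : ℝ) < θ * m} with hB
  have e1 : ∀ N, cnt B N = b N := by
    intro N
    induction N with
    | zero => simp [cnt, hb0]
    | succ N ih =>
      rw [cnt_succ, hb, ih]
      have : N + 1 ∈ B ↔ N + 1 ∈ A ∧ (b N : ℝ) < θ * (N + 1) := by
        simp [hB]
      by_cases hc : N + 1 ∈ B
      · rw [if_pos hc, if_pos (this.1 hc)]
      · rw [if_neg hc, if_neg (fun h => hc (this.2 h))]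
        rfl
  have e2 : ∀ N : ℕ, (b N : ℝ) ≤ θ * N + 1 := by
    intro N
    induction N with
    | zero => simp [hb0]
    | succ N ih =>
      rw [hb]
      split_ifs with hc
      · push_cast
        linarith [hc.2]
      · push_cast
        linarith
  have e3 : ∀ N : ℕ, ∃ K ≤ N, θ * K ≤ b K ∧ (b N : ℝ) - b K = (cnt A N : ℝ) - cnt A K := by
    intro N
    induction N with
    | zero => exact ⟨0, le_rfl, by simp, by simp⟩
    | succ N ih =>
      obtain ⟨K, k1, k2, k3⟩ := ih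
      by_cases hA : N + 1 ∈ A
      · by_cases hc : (b N : ℝ) < θ * (N + 1)
        · refine ⟨K, by omega, k2, ?_⟩
          rw [hb, if_pos ⟨hA, hc⟩, cnt_succ, if_pos hA]
          push_cast
          linarith
        · refine ⟨N + 1, le_rfl, ?_, by simp⟩
          rw [hb, if_neg (fun h => hc h.2)]
          push_cast
          linarith
      · refine ⟨K, by omega, k2, ?_⟩
        rw [hb, if_neg (fun h => hA h.1), cnt_succ, if_neg hA]
        simpa using k3
  have l1 : Tendsto (fun N : ℕ => θ - E N / N) atTop (𝓝 θ) := by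
    simpa using hE.const_sub θ
  have l2 : Tendsto (fun N : ℕ => θ + (1 : ℝ) / N) atTop (𝓝 θ) := by
    simpa using tendsto_one_div_atTop_nhds_zero_nat.const_add θ
  refine tendsto_of_tendsto_of_tendsto_of_le_of_le' l1 l2 ?_ ?_
  · filter_upwards [eventually_gt_atTop 0] with N hN
    have hN' : (0 : ℝ) < N := by exact_mod_cast hN
    obtain ⟨K, k1, k2, k3⟩ := e3 N
    have := h K N k1
    rw [e1, le_div_iff₀ hN', sub_mul, div_mul_cancel₀ _ hN'.ne']
    linarith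
  · filter_upwards [eventually_gt_atTop 0] with N hN
    have hN' : (0 : ℝ) < N := by exact_mod_cast hN
    rw [e1, div_le_iff₀ hN', add_mul, div_mul_cancel₀ _ hN'.ne']
    exact e2 N

theorem abel (g : ℕ → ℝ) (C : ℝ) (hC : 0 ≤ C) (h : ∀ N, -C ≤ ∑ n ∈ Icc 1 N, g n) (X : ℕ) :
    -C ≤ ∑ n ∈ Icc 1 X, g n / n := by
  have key : ∀ X : ℕ, -C ≤ ∑ n ∈ Icc 1 (X + 1), g n / n -
      (∑ n ∈ Icc 1 (X + 1), g n + C) / (X + 1 : ℕ) := by
    intro X
    induction X with
    | zero => simp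
    | succ X ih =>
      rw [sum_Icc_succ_top (by omega), sum_Icc_succ_top (b := X + 1) (f := g) (by omega)]
      have h1 := h (X + 1)
      generalize ∑ n ∈ Icc 1 (X + 1), g n = G at *
      have h2 : (G + C) / ((X + 1 + 1 : ℕ) : ℝ) ≤ (G + C) / ((X + 1 : ℕ) : ℝ) := by
        apply div_le_div_of_nonneg_left (by linarith) (by positivity)
        push_cast
        linarith
      have h3 : (G + g (X + 1 + 1) + C) / ((X + 1 + 1 : ℕ) : ℝ) =
          (G + C) / ((X + 1 + 1 : ℕ) : ℝ) + g (X + 1 + 1) / ((X + 1 + 1 : ℕ) : ℝ) := by ring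
      linarith
  rcases X with _ | X
  · simpa using hC
  · have h1 := key X
    have h2 : 0 ≤ (∑ n ∈ Icc 1 (X + 1), g n + C) / ((X + 1 : ℕ) : ℝ) :=
      div_nonneg (by linarith [h (X + 1)]) (by positivity)
    linarith

noncomputable def Hm (X : ℕ) : ℝ := ∑ n ∈ Icc 1 X, (1 : ℝ) / n

theorem Hm_top : Tendsto Hm atTop atTop := by
  refine Real.tendsto_sum_range_one_div_nat_succ_atTop.congr fun X => ?_
  induction X with
  | zero => simp [Hm]
  | succ X ih =>
    rw [sum_range_succ, ih, Hm, Hm, sum_Icc_succ_top (by omega)]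
    push_cast
    rfl

open Classical in
theorem log_ge (A : Set ℕ) (θ C : ℝ) (hC : 0 ≤ C) (h : ∀ N : ℕ, θ * N - C ≤ cnt A N) (X : ℕ) :
    θ * Hm X - C ≤ w ((Icc 1 X).filter fun n => n ∈ A) := by
  have := abel (fun n => (if n ∈ A then 1 else 0) - θ) C hC (fun N => by
    have := h N
    rw [sum_sub_distrib, sum_boole]
    simp only [sum_const, Nat.card_Icc, Nat.add_sub_cancel, nsmul_eq_mul]
    unfold cnt at this
    linarith) X
  simp only [sub_div, sum_sub_distrib] at this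
  rw [w, sum_filter, Hm, mul_sum]
  have e1 : ∑ n ∈ Icc 1 X, (if n ∈ A then (1 : ℝ) else 0) / n =
      ∑ n ∈ Icc 1 X, if n ∈ A then (1 : ℝ) / n else 0 :=
    sum_congr rfl fun n _ => by split_ifs <;> simp
  have e2 : ∑ n ∈ Icc 1 X, θ / n = ∑ n ∈ Icc 1 X, θ * (1 / n) :=
    sum_congr rfl fun n _ => by ring
  linarith

open Classical in
theorem log_le (A : Set ℕ) (θ C : ℝ) (hC : 0 ≤ C) (h : ∀ N : ℕ, (cnt A N : ℝ) ≤ θ * N + C) (X : ℕ) :
    w ((Icc 1 X).filter fun n => n ∈ A) ≤ θ * Hm X + C := by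
  have := abel (fun n => θ - (if n ∈ A then 1 else 0)) C hC (fun N => by
    have := h N
    rw [sum_sub_distrib, sum_boole]
    simp only [sum_const, Nat.card_Icc, Nat.add_sub_cancel, nsmul_eq_mul]
    unfold cnt at this
    linarith) X
  simp only [sub_div, sum_sub_distrib] at this
  rw [w, sum_filter, Hm, mul_sum]
  have e1 : ∑ n ∈ Icc 1 X, (if n ∈ A then (1 : ℝ) else 0) / n =
      ∑ n ∈ Icc 1 X, if n ∈ A then (1 : ℝ) / n else 0 :=
    sum_congr rfl fun n _ => by split_ifs <;> simp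
  have e2 : ∑ n ∈ Icc 1 X, θ / n = ∑ n ∈ Icc 1 X, θ * (1 / n) :=
    sum_congr rfl fun n _ => by ring
  linarith

def Cop (M : ℕ) : Set ℕ := {m | M.Coprime m}

theorem cop_bounds {M : ℕ} (hM : 0 < M) (N : ℕ) :
    (M.totient : ℝ) / M * N - M ≤ cnt (Cop M) N ∧ (cnt (Cop M) N : ℝ) ≤ M.totient / M * N + M := by
  classical
  have hM' : (0 : ℝ) < M := by exact_mod_cast hM
  have e : ∀ j, cnt (Cop M) (M * j) = j * M.totient := by
    intro j
    rw [← cop_count M 1 j, cnt]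
    congr 1
    ext n
    simp only [mem_filter, mem_Icc, mem_Ico, Cop, Set.mem_ofPred_eq]
    constructor
    · rintro ⟨h1, h2⟩
      exact ⟨by omega, h2⟩
    · rintro ⟨h1, h2⟩
      exact ⟨by omega, h2⟩
  have h1 : M * (N / M) ≤ N := Nat.mul_div_le N M
  have h2 : N < M * (N / M + 1) := Nat.lt_mul_div_succ N hM
  have h3 := cnt_Ioc (Cop M) h1
  have h4 := cnt_Ioc (Cop M) h2.le
  rw [e] at h3 h4
  have h5 : ((N / M : ℕ) : ℝ) * M.totient ≤ cnt (Cop M) N := by exact_mod_cast (by omega)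
  have h6 : (cnt (Cop M) N : ℝ) ≤ ((N / M : ℕ) + 1) * M.totient := by exact_mod_cast (by omega)
  have h7 : (M : ℝ) * (N / M : ℕ) ≤ N := by exact_mod_cast h1
  have h8 : (N : ℝ) ≤ M * ((N / M : ℕ) + 1) := by exact_mod_cast h2.le
  have h9 : (M.totient : ℝ) ≤ M := by exact_mod_cast M.totient_le
  have h10 : (0 : ℝ) ≤ M.totient := by positivity
  generalize ((N / M : ℕ) : ℝ) = q at *
  have h11 : (M.totient : ℝ) / M * N ≤ M.totient * (q + 1) := by
    rw [div_mul_eq_mul_div, div_le_iff₀ hM']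
    nlinarith
  have h12 : M.totient * q ≤ (M.totient : ℝ) / M * N := by
    rw [div_mul_eq_mul_div, le_div_iff₀ hM']
    nlinarith
  constructor <;> nlinarith

theorem decomp (M : ℕ) (n : ℕ) : 0 < n → ∃ m s k, n = m * s ∧ M.Coprime m ∧ s ∣ M ^ k := by
  induction n using Nat.strong_induction_on with
  | _ n ih =>
    intro hn
    by_cases h : M.Coprime n
    · exact ⟨n, 1, 0, by simp, h, by simp⟩
    · obtain ⟨n', hn'⟩ := Nat.gcd_dvd_right M n
      have hg : 0 < M.gcd n := Nat.gcd_pos_of_pos_right _ hn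
      have hg1 : M.gcd n ≠ 1 := h
      have h0 : 0 < n' := Nat.pos_of_ne_zero (by rintro rfl; omega)
      obtain ⟨m, s, k, e1, e2, e3⟩ := ih n' (by nlinarith [show 2 ≤ M.gcd n by omega]) h0
      refine ⟨m, s * M.gcd n, k + 1, by rw [← mul_assoc, ← e1, mul_comm]; exact hn', e2, ?_⟩
      rw [pow_succ]
      exact Nat.mul_dvd_mul e3 (Nat.gcd_dvd_left _ _)

theorem upper {M : ℕ} (hM : 0 < M) {A : Set ℕ} (hA : Free A) {d W : ℝ}
    (hd : Tendsto (fun N : ℕ => (cnt A N : ℝ) / N) atTop (𝓝 d))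
    (hW : ∀ S : Finset ℕ, (∀ s ∈ S, 0 < s ∧ ∃ k, s ∣ M ^ k) → Free S → w S ≤ W) :
    d ≤ M.totient / M * W := by
  classical
  have hW0 : 0 ≤ W := by simpa [w] using hW ∅ (by simp) (by simp [Free])
  by_contra hlt
  obtain ⟨θ, h1, h2⟩ := exists_between (not_le.1 hlt)
  obtain ⟨N1, hN1⟩ := eventually_atTop.1 (hd.eventually (lt_mem_nhds h2))
  have hθ : 0 ≤ θ := le_trans (by positivity) h1.le
  have h3 : ∀ N : ℕ, θ * N - θ * N1 ≤ cnt A N := by
    intro N
    rcases le_or_gt N N1 with h | h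
    · have : (N : ℝ) ≤ N1 := by exact_mod_cast h
      have : (0 : ℝ) ≤ cnt A N := by positivity
      nlinarith
    · have h4 := hN1 N h.le
      have hN : (0 : ℝ) < N := by exact_mod_cast (by omega : 0 < N)
      rw [lt_div_iff₀ hN] at h4
      have : 0 ≤ θ * N1 := by positivity
      linarith
  have h4 : ∀ X, w ((Icc 1 X).filter fun n => n ∈ A) ≤
      W * w ((Icc 1 X).filter fun n => n ∈ Cop M) := by
    intro X
    have hs : ((Icc 1 X).filter fun n => n ∈ A) ⊆ ((Icc 1 X).filter fun n => n ∈ Cop M).biUnion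
        fun m => ((Icc 1 X).filter fun s => m * s ∈ A ∧ ∃ k, s ∣ M ^ k).image fun s => m * s := by
      intro n hn
      obtain ⟨hn1, hn2⟩ := mem_filter.1 hn
      have hn3 := mem_Icc.1 hn1
      obtain ⟨m, s, k, rfl, e2, e3⟩ := decomp M n hn3.1
      have hm : 0 < m := Nat.pos_of_mul_pos_right hn3.1
      have hs : 0 < s := Nat.pos_of_mul_pos_left hn3.1
      exact mem_biUnion.2 ⟨m, mem_filter.2 ⟨mem_Icc.2 ⟨hm, by nlinarith⟩, e2⟩, mem_image.2
        ⟨s, mem_filter.2 ⟨mem_Icc.2 ⟨hs, by nlinarith⟩, hn2, k, e3⟩, rfl⟩⟩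
    refine (w_mono hs).trans ((w_biUnion_le _ _).trans ?_)
    rw [w, mul_sum]
    refine sum_le_sum fun m hm => (w_image_le _ _).trans ?_
    have hm0 : 0 < m := (mem_Icc.1 (mem_filter.1 hm).1).1
    have h5 := hW ((Icc 1 X).filter fun s => m * s ∈ A ∧ ∃ k, s ∣ M ^ k)
      (fun s hs => ⟨(mem_Icc.1 (mem_filter.1 hs).1).1, (mem_filter.1 hs).2.2⟩) (by
        intro a ha b hb c hc hab hbc h
        refine hA _ (mem_filter.1 (mem_coe.1 ha)).2.1 _ (mem_filter.1 (mem_coe.1 hb)).2.1 _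
          (mem_filter.1 (mem_coe.1 hc)).2.1 (by nlinarith) (by nlinarith) ?_
        rw [mul_pow, h]
        ring)
    have h6 : ∀ S : Finset ℕ, ∑ i ∈ S, (1 : ℝ) / ((m * i : ℕ) : ℝ) = w S * (1 / m) := by
      intro S
      rw [w, sum_mul]
      refine sum_congr rfl fun i _ => ?_
      push_cast
      rw [one_div_mul_one_div, mul_comm]
    rw [h6]
    exact mul_le_mul_of_nonneg_right h5 (by positivity)
  obtain ⟨X, hX⟩ := (Hm_top.eventually_gt_atTop
    ((θ * N1 + W * M) / (θ - M.totient / M * W))).exists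
  rw [div_lt_iff₀ (by linarith)] at hX
  have h5 := log_ge A θ (θ * N1) (by positivity) h3 X
  have h6 := log_le (Cop M) _ M (by positivity) (fun N => (cop_bounds hM N).2) X
  have h7 := mul_le_mul_of_nonneg_left h6 hW0
  have h8 := h4 X
  nlinarith

open Classical in
theorem bad_loc (P K N : ℕ) (hP : 0 < P) (hK : K ≤ N) :
    (((Ioc K N).filter fun n => ∃ d, P < d ∧ d ^ 2 ∣ n).card : ℝ) ≤ (N - K) / P + N.sqrt := by
  have h1 : ((Ioc K N).filter fun n => ∃ d, P < d ∧ d ^ 2 ∣ n) ⊆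
      (Ioc P N.sqrt).biUnion fun d => (Ioc K N).filter fun n => d ^ 2 ∣ n := by
    intro n hn
    obtain ⟨hn1, d, hd, hdn⟩ := mem_filter.1 hn
    have hn2 := mem_Ioc.1 hn1
    refine mem_biUnion.2 ⟨d, mem_Ioc.2 ⟨hd, ?_⟩, mem_filter.2 ⟨hn1, hdn⟩⟩
    exact Nat.le_sqrt'.2 ((Nat.le_of_dvd (by omega) hdn).trans hn2.2)
  have h2 := (card_le_card h1).trans card_biUnion_le
  have h3 : (((Ioc K N).filter fun n => ∃ d, P < d ∧ d ^ 2 ∣ n).card : ℝ) ≤
      ∑ d ∈ Ioc P N.sqrt, (((Ioc K N).filter fun n => d ^ 2 ∣ n).card : ℝ) := by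
    exact_mod_cast h2
  refine h3.trans ?_
  have hK' : (K : ℝ) ≤ N := by exact_mod_cast hK
  have h4 : ∀ d ∈ Ioc P N.sqrt, (((Ioc K N).filter fun n => d ^ 2 ∣ n).card : ℝ) ≤
      (N - K) * (1 / d ^ 2) + 1 := by
    intro d hd
    have hd0 : 0 < d := by have := (mem_Ioc.1 hd).1; omega
    have e1 := cnt_Ioc {n | d ^ 2 ∣ n} hK
    have e2 : ∀ x, cnt {n | d ^ 2 ∣ n} x = x / d ^ 2 := fun x => by
      rw [← card_mult, cnt]
      congr
    rw [e2, e2] at e1
    have e3 : ((N / d ^ 2 : ℕ) : ℝ) = (K / d ^ 2 : ℕ) + ((Ioc K N).filter fun n => d ^ 2 ∣ n).card := by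
      rw [e1]
      push_cast
      congr
    have e4 : ((N / d ^ 2 : ℕ) : ℝ) ≤ N / (d ^ 2 : ℕ) := Nat.cast_div_le
    have e5 : (K : ℝ) < (d ^ 2 : ℕ) * ((K / d ^ 2 : ℕ) + 1) := by
      exact_mod_cast Nat.lt_mul_div_succ K (by positivity : 0 < d ^ 2)
    have hd' : (0 : ℝ) < (d ^ 2 : ℕ) := by positivity
    rw [mul_comm, ← div_lt_iff₀ hd'] at e5
    have e6 : ((N : ℝ) - K) * (1 / d ^ 2) = N / (d ^ 2 : ℕ) - K / (d ^ 2 : ℕ) := by
      push_cast
      ring
    linarith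
  refine (sum_le_sum h4).trans ?_
  rw [sum_add_distrib, ← mul_sum, sum_const, Nat.card_Ioc, nsmul_eq_mul, mul_one]
  have h5 := sum_sq P N.sqrt hP
  have h6 : (0 : ℝ) ≤ 1 / (max N.sqrt P : ℕ) := by positivity
  have h7 : ((N.sqrt - P : ℕ) : ℝ) ≤ N.sqrt := by exact_mod_cast Nat.sub_le _ _
  have h8 : ((N : ℝ) - K) * ∑ d ∈ Ioc P N.sqrt, (1 : ℝ) / d ^ 2 ≤ (N - K) * (1 / P) :=
    mul_le_mul_of_nonneg_left (by linarith) (by linarith)
  have h9 : ((N : ℝ) - K) * (1 / P) = (N - K) / P := by ring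
  linarith

theorem sqrt_lim : Tendsto (fun N : ℕ => (N.sqrt : ℝ) / N) atTop (𝓝 0) := by
  have h1 : Tendsto Nat.sqrt atTop atTop := by
    refine tendsto_atTop.2 fun b => ?_
    filter_upwards [eventually_ge_atTop (b ^ 2)] with N hN
    exact Nat.le_sqrt'.2 hN
  refine squeeze_zero' (Eventually.of_forall fun N => by positivity) ?_
    (tendsto_one_div_atTop_nhds_zero_nat.comp h1)
  filter_upwards [eventually_gt_atTop 0] with N hN
  have h2 : (0 : ℝ) < N := by exact_mod_cast hN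
  have h3 : (0 : ℝ) < N.sqrt := by exact_mod_cast Nat.sqrt_pos.2 hN
  have h4 : (N.sqrt : ℝ) * N.sqrt ≤ N := by exact_mod_cast Nat.sqrt_le N
  simp only [Function.comp]
  rw [div_le_div_iff₀ h2 h3]
  linarith

theorem lower {P : ℕ} (hP : 0 < P) (S : Finset ℕ) (hS : ∀ s ∈ S, 0 < s ∧ ∃ k, s ∣ P.factorial ^ k)
    (hF : IFree S) (hθ : 0 ≤ (P.factorial.totient : ℝ) / P.factorial * w S - 1 / P) :
    ∃ B : Set ℕ, (∀ n ∈ B, 0 < n) ∧ IFree B ∧ Tendsto (fun N : ℕ => (cnt B N : ℝ) / N) atTop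
      (𝓝 ((P.factorial.totient : ℝ) / P.factorial * w S - 1 / P)) := by
  classical
  obtain ⟨M, hM⟩ : ∃ M, M = P.factorial := ⟨_, rfl⟩
  have hM0 : 0 < M := hM ▸ P.factorial_pos
  rw [← hM] at hS hθ ⊢
  have un : ∀ {m m' s s' : ℕ}, M.Coprime m → s' ∈ S → m ∣ m' * s' → m ∣ m' := by
    intro m m' s s' hm hs' h
    obtain ⟨-, k, hk⟩ := hS s' hs'
    exact ((hm.symm.pow_right k).coprime_dvd_right hk).dvd_of_dvd_mul_right h
  set A : Set ℕ := {n | 0 < n ∧ (∃ m, M.Coprime m ∧ ∃ s ∈ S, n = m * s) ∧ ¬ ∃ d, P < d ∧ d ^ 2 ∣ n}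
    with hA
  have hAF : IFree A := by
    rintro a r hr ⟨a0, ⟨m1, c1, s1, t1, e1⟩, b1⟩ ⟨-, ⟨m2, c2, s2, t2, e2⟩, b2⟩
      ⟨-, ⟨m3, c3, s3, t3, e3⟩, b3⟩
    have he : (a * r) ^ 2 = a * (a * r ^ 2) := by ring
    have d1 := share (hM ▸ c1.symm) he b1 b2 b3 (Or.inl ⟨s1, e1⟩)
    have d2 := share (hM ▸ c2.symm) he b1 b2 b3 (Or.inr (Or.inl ⟨s2, e2⟩))
    have d3 := share (hM ▸ c3.symm) he b1 b2 b3 (Or.inr (Or.inr ⟨s3, e3⟩))
    have q2 : m2 = m1 := Nat.dvd_antisymm (un (s := 0) c2 t1 (e1 ▸ d2.1))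
      (un (s := 0) c1 t2 (e2 ▸ d1.2.1))
    have q3 : m3 = m1 := Nat.dvd_antisymm (un (s := 0) c3 t1 (e1 ▸ d3.1))
      (un (s := 0) c1 t3 (e3 ▸ d1.2.2))
    rw [q2] at e2
    rw [q3] at e3
    subst e1
    have hm : 0 < m1 := Nat.pos_of_mul_pos_right a0
    have f2 : s1 * r = s2 := Nat.eq_of_mul_eq_mul_left hm (by rw [← e2]; ring)
    have f3 : s1 * r ^ 2 = s3 := Nat.eq_of_mul_eq_mul_left hm (by rw [← e3]; ring)
    exact hF s1 r hr t1 (f2 ▸ t2) (f3 ▸ t3)
  obtain ⟨B, b1, b2⟩ := thin A _ hθ (fun N => S.card * (2 * M + 1) + N.sqrt) (by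
    have := (tendsto_const_div_atTop_nhds_zero_nat (S.card * (2 * M + 1) : ℝ)).add sqrt_lim
    rw [add_zero] at this
    refine this.congr fun N => ?_
    ring) (by
    intro K N hK
    have hK' : (K : ℝ) ≤ N := by exact_mod_cast hK
    set V := S.biUnion fun s => ((Ioc (K / s) (N / s)).filter fun m => m ∈ Cop M).image
      fun m => m * s with hV
    have v1 : V.card = ∑ s ∈ S, ((Ioc (K / s) (N / s)).filter fun m => m ∈ Cop M).card := by
      rw [hV, card_biUnion]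
      · exact sum_congr rfl fun s hs => card_image_of_injective _
          (mul_left_injective₀ (hS s hs).1.ne')
      · intro s hs s' hs' hne
        refine disjoint_left.2 fun x hx hx' => hne ?_
        obtain ⟨m, hm, rfl⟩ := mem_image.1 hx
        obtain ⟨m', hm', he⟩ := mem_image.1 hx'
        obtain ⟨hm1, hm2⟩ := mem_filter.1 hm
        have : m = m' := Nat.dvd_antisymm (un (s := 0) hm2 hs' (he ▸ Dvd.intro _ rfl))
          (un (s := 0) (mem_filter.1 hm').2 hs (he ▸ Dvd.intro _ rfl))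
        subst this
        have hm0 : 0 < m := lt_of_le_of_lt (Nat.zero_le _) (mem_Ioc.1 hm1).1
        exact (Nat.eq_of_mul_eq_mul_left hm0 he).symm
    have v2 : V ⊆ ((Ioc K N).filter fun n => n ∈ A) ∪
        ((Ioc K N).filter fun n => ∃ d, P < d ∧ d ^ 2 ∣ n) := by
      intro x hx
      obtain ⟨s, hs, hx⟩ := mem_biUnion.1 hx
      obtain ⟨m, hm, rfl⟩ := mem_image.1 hx
      obtain ⟨hm1, hm2⟩ := mem_filter.1 hm
      have hs0 := (hS s hs).1
      have h1 := (Nat.div_lt_iff_lt_mul hs0).1 (mem_Ioc.1 hm1).1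
      have h2 := (Nat.le_div_iff_mul_le hs0).1 (mem_Ioc.1 hm1).2
      by_cases hb : ∃ d, P < d ∧ d ^ 2 ∣ m * s
      · exact mem_union_right _ (mem_filter.2 ⟨mem_Ioc.2 ⟨h1, h2⟩, hb⟩)
      · exact mem_union_left _ (mem_filter.2 ⟨mem_Ioc.2 ⟨h1, h2⟩, by omega, ⟨m, hm2, s, hs, rfl⟩, hb⟩)
    have v3 := (card_le_card v2).trans (card_union_le _ _)
    have v4 := bad_loc P K N hP hK
    have v5 := cnt_Ioc A hK
    have hδ0 : (0 : ℝ) ≤ (M.totient : ℝ) / M := by positivity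
    have hδ1 : (M.totient : ℝ) / M ≤ 1 :=
      div_le_one_of_le₀ (by exact_mod_cast M.totient_le) (by positivity)
    have v6 : ∀ s ∈ S, (M.totient : ℝ) / M * (N - K) * (1 / s) - (2 * M + 1) ≤
        ((Ioc (K / s) (N / s)).filter fun m => m ∈ Cop M).card := by
      intro s hs
      have hs0 := (hS s hs).1
      have hs' : (0 : ℝ) < s := by exact_mod_cast hs0
      have e1 := cnt_Ioc (Cop M) (Nat.div_le_div_right (c := s) hK)
      have e2 : (cnt (Cop M) (N / s) : ℝ) = cnt (Cop M) (K / s) +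
          ((Ioc (K / s) (N / s)).filter fun m => m ∈ Cop M).card := by exact_mod_cast e1
      have e3 := (cop_bounds hM0 (N / s)).1
      have e4 := (cop_bounds hM0 (K / s)).2
      have e5 : ((K / s : ℕ) : ℝ) ≤ K / s := Nat.cast_div_le
      have e6 : (N : ℝ) < s * ((N / s : ℕ) + 1) := by exact_mod_cast Nat.lt_mul_div_succ N hs0
      rw [mul_comm, ← div_lt_iff₀ hs'] at e6
      have e7 : (M.totient : ℝ) / M * (N - K) * (1 / s) = M.totient / M * (N / s - K / s) := by ring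
      rw [e7]
      generalize (M.totient : ℝ) / M = δ at *
      nlinarith
    have v7 := sum_le_sum v6
    rw [sum_sub_distrib, ← mul_sum, sum_const, nsmul_eq_mul, ← Nat.cast_sum, ← v1] at v7
    have v8 : (V.card : ℝ) ≤ ((Ioc K N).filter fun n => n ∈ A).card +
        (((Ioc K N).filter fun n => ∃ d, P < d ∧ d ^ 2 ∣ n).card : ℝ) := by exact_mod_cast v3
    have v9 : (cnt A N : ℝ) = cnt A K + ((Ioc K N).filter fun n => n ∈ A).card := by
      rw [v5]
      push_cast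
      congr
    have v10 : ((M.totient : ℝ) / M * w S - 1 / P) * (N - K) =
        M.totient / M * (N - K) * (∑ i ∈ S, (1 : ℝ) / i) - (N - K) / P := by
      rw [w]
      ring
    linarith)
  exact ⟨B, fun n hn => (b1 hn).1, fun a r hr h1 h2 h3 => hAF a r hr (b1 h1) (b1 h2) (b1 h3), b2⟩

theorem main : ∃ c : ℝ, 0 < c ∧ ∀ β : ℝ, 0 ≤ β → (∀ (B : Set ℕ) (d : ℝ), (∀ n ∈ B, 0 < n) → IFree B →
    Tendsto (fun N : ℕ => (cnt B N : ℝ) / N) atTop (𝓝 d) → d ≤ β) → ∀ (A : Set ℕ) (d : ℝ), Free A →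
    Tendsto (fun N : ℕ => (cnt A N : ℝ) / N) atTop (𝓝 d) → d ≤ β - c := by
  obtain ⟨P, hP, hC⟩ := tot_big 1000000
  have hF : (0 : ℝ) < P.factorial := by exact_mod_cast P.factorial_pos
  have hP' : (0 : ℝ) < P := by exact_mod_cast (by omega : 0 < P)
  have hφ : (0 : ℝ) < P.factorial.totient := by
    exact_mod_cast Nat.totient_pos.2 P.factorial_pos
  have hP9 : 900 ≤ P := by
    have h1 : (P.factorial.totient : ℝ) ≤ P.factorial := by exact_mod_cast P.factorial.totient_le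
    have h2 : (900 : ℝ) ≤ P := by
      push_cast at hC
      nlinarith
    exact_mod_cast h2
  set δ : ℝ := P.factorial.totient / P.factorial with hδ
  have hδ0 : 0 < δ := by positivity
  refine ⟨δ / 1000000 - 1 / P, ?_, fun β hβ hB A d hA hd => ?_⟩
  · rw [sub_pos, hδ, div_div, div_lt_div_iff₀ hP' (by positivity)]
    push_cast at hC
    linarith
  have := upper P.factorial_pos hA hd (W := (β + 1 / P) / δ - 1 / 1000000) (by
    intro S hS hSF
    obtain ⟨S', s1, s2, s3⟩ := good (fun n hn => (hS n hn).1) hSF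
    have h1 : δ * w S' - 1 / P ≤ β := by
      by_cases h0 : 0 ≤ δ * w S' - 1 / P
      · obtain ⟨B, b1, b2, b3⟩ := lower (by omega) S' (fun n hn => by
          rcases s1 n hn with h | h
          · exact hS n h
          · exact ⟨h.1, 1, by simpa using Nat.dvd_factorial h.1 (by omega)⟩) s2 h0
        exact hB B _ b1 b2 b3
      · linarith
    rw [le_sub_iff_add_le, le_div_iff₀ hδ0]
    nlinarith)
  rw [← hδ, mul_sub, mul_div_cancel₀ _ hδ0.ne'] at this
  linarith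

end Pool.Agent.H.MP_0c1da6_nt
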